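import Mathlib
import Pool.Agent.Q64.Mollify

/-!
# Closedness of distributional supersolutions under `L¹` convergence
-/

set_option autoImplicit false

open Filter Topology Set MeasureTheory Metric
open scoped ContDiff
open Q64

namespace Pool.Agent.Results.MP_97dcc2_an.Closedness

/-- `ℝ^N`. -/
abbrev E (N : ℕ) := EuclideanSpace ℝ (Fin N)

variable {N : ℕ}

/-- The `i`-th unit vector. -/
noncomputable def ev (i : Fin N) : E N := EuclideanSpace.single i 1

/-- The Laplacian `∑ᵢ ∂ᵢ∂ᵢ φ`. -/
noncomputable def lap (φ : E N → ℝ) (x : E N) : ℝ :=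
  ∑ i, fderiv ℝ (fun y => fderiv ℝ φ y (ev i)) x (ev i)

/-- Nonnegative test functions `φ ∈ C_c^∞(Ω)`. -/
structure IsTest (Ω : Set (E N)) (φ : E N → ℝ) : Prop where
  smooth : ContDiff ℝ ∞ φ
  compact : HasCompactSupport φ
  subset : tsupport φ ⊆ Ω
  nonneg : ∀ x, 0 ≤ φ x

/-- `v ∈ L¹(Ω)`, `g(v) ∈ L¹(Ω)` and `-Δv + g(v) ≥ 0` in the sense of distributions in `Ω`. -/
structure IsSupersolution (Ω : Set (E N)) (g : ℝ → ℝ) (v : E N → ℝ) : Prop where
  integrableOn : IntegrableOn v Ω
  integrableOn_g : IntegrableOn (fun x => g (v x)) Ω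
  ineq : ∀ φ, IsTest Ω φ → 0 ≤ (∫ x in Ω, v x * (-lap φ x)) + ∫ x in Ω, g (v x) * φ x

/-! ### Smooth calculus -/

section Calculus

lemma contDiff_dir {φ : E N → ℝ} (h : ContDiff ℝ ∞ φ) (v : E N) :
    ContDiff ℝ ∞ fun y => fderiv ℝ φ y v :=
  (h.fderiv_right (m := ∞) (by simp)).clm_apply contDiff_const

lemma contDiff_lap {φ : E N → ℝ} (h : ContDiff ℝ ∞ φ) : ContDiff ℝ ∞ (lap φ) := by
  unfold lap
  exact ContDiff.sum fun i _ => contDiff_dir (contDiff_dir h _) _

lemma compact_dir {φ : E N → ℝ} (h : HasCompactSupport φ) (v : E N) :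
    HasCompactSupport fun y => fderiv ℝ φ y v :=
  (h.fderiv ℝ).comp_left (g := fun L : E N →L[ℝ] ℝ => L v) rfl

lemma compact_lap {φ : E N → ℝ} (h : HasCompactSupport φ) : HasCompactSupport (lap φ) := by
  have h1 : ∀ t : Finset (Fin N), HasCompactSupport fun x =>
      ∑ i ∈ t, fderiv ℝ (fun y => fderiv ℝ φ y (ev i)) x (ev i) := by
    intro t
    induction t using Finset.induction_on with
    | empty =>
      simp only [Finset.sum_empty]
      exact HasCompactSupport.zero
    | insert a t ha ih =>
      simp_rw [Finset.sum_insert ha]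
      exact (compact_dir (compact_dir h _) _).add ih
  exact h1 _

lemma fderiv_reflect {φ : E N → ℝ} (h : ContDiff ℝ ∞ φ) (x t v : E N) :
    fderiv ℝ (fun t => φ (x - t)) t v = -fderiv ℝ φ (x - t) v := by
  have h1 : HasFDerivAt (fun t : E N => x - t) (-ContinuousLinearMap.id ℝ (E N)) t :=
    (hasFDerivAt_id t).const_sub x
  have h2 : HasFDerivAt φ (fderiv ℝ φ (x - t)) (x - t) :=
    (h.differentiable (by simp) _).hasFDerivAt
  have h3 : HasFDerivAt (fun t => φ (x - t)) _ t := h2.comp t h1
  rw [h3.fderiv]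
  simp

lemma lap_reflect {φ : E N → ℝ} (h : ContDiff ℝ ∞ φ) (x t : E N) :
    lap (fun t => φ (x - t)) t = lap φ (x - t) := by
  unfold lap
  refine Finset.sum_congr rfl fun i _ => ?_
  have h1 : (fun y => fderiv ℝ (fun t => φ (x - t)) y (ev i)) =
      fun y => (fun z => -fderiv ℝ φ z (ev i)) (x - y) := by
    funext y
    exact fderiv_reflect h x y _
  rw [h1, fderiv_reflect ((contDiff_dir h _).neg)]
  rw [fderiv_fun_neg]
  simp

lemma lap_comp {Φ : ℝ → ℝ} (hΦ : ContDiff ℝ 2 Φ) {w : E N → ℝ} (hw : ContDiff ℝ ∞ w) (x : E N) :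
    lap (fun y => Φ (w y)) x = deriv (deriv Φ) (w x) * ∑ i, (fderiv ℝ w x (ev i)) ^ 2 +
      deriv Φ (w x) * lap w x := by
  have hΦ1 : ContDiff ℝ 1 (deriv Φ) := by
    rw [← one_add_one_eq_two] at hΦ
    exact (contDiff_succ_iff_deriv.1 hΦ).2.2
  unfold lap
  rw [Finset.mul_sum, Finset.mul_sum, ← Finset.sum_add_distrib]
  refine Finset.sum_congr rfl fun i _ => ?_
  have h1 : (fun y => fderiv ℝ (fun y => Φ (w y)) y (ev i)) =
      fun y => deriv Φ (w y) * fderiv ℝ w y (ev i) := by
    funext y
    have h2 : HasFDerivAt w (fderiv ℝ w y) y := (hw.differentiable (by simp) y).hasFDerivAt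
    have h3 : HasDerivAt Φ (deriv Φ (w y)) (w y) :=
      (hΦ.differentiable (by simp) (w y)).hasDerivAt
    have h4 : HasFDerivAt (fun y => Φ (w y)) (deriv Φ (w y) • fderiv ℝ w y) y :=
      h3.comp_hasFDerivAt y h2
    rw [h4.fderiv]
    simp
  rw [h1]
  have h2 : HasFDerivAt w (fderiv ℝ w x) x := (hw.differentiable (by simp) x).hasFDerivAt
  have h3 : HasDerivAt (deriv Φ) (deriv (deriv Φ) (w x)) (w x) :=
    (hΦ1.differentiable (by simp) (w x)).hasDerivAt
  have h4 : HasFDerivAt (fun y => deriv Φ (w y)) (deriv (deriv Φ) (w x) • fderiv ℝ w x) x :=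
    h3.comp_hasFDerivAt x h2
  have h5 : HasFDerivAt (fun y => fderiv ℝ w y (ev i))
      (fderiv ℝ (fun y => fderiv ℝ w y (ev i)) x) x :=
    ((contDiff_dir hw _).differentiable (by simp) x).hasFDerivAt
  rw [(h4.fun_mul h5).fderiv]
  simp
  ring

lemma integrable_mul_cs {f φ : E N → ℝ} (hf : Continuous f) (hφ : Continuous φ)
    (hφ2 : HasCompactSupport φ) : Integrable fun x => f x * φ x :=
  (hf.mul hφ).integrable_of_hasCompactSupport (hφ2.mul_left)

lemma byparts {F φ : E N → ℝ} (hF : ContDiff ℝ 2 F) (hφ : ContDiff ℝ ∞ φ)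
    (hφ2 : HasCompactSupport φ) : ∫ x, F x * lap φ x = ∫ x, lap F x * φ x := by
  have hF1 : ∀ v, ContDiff ℝ 1 fun y => fderiv ℝ F y v := fun v =>
    (hF.fderiv_right (m := 1) (by norm_num)).clm_apply contDiff_const
  have hF2 : ∀ v v' : E N, Continuous fun x => fderiv ℝ (fun y => fderiv ℝ F y v) x v' :=
    fun v v' => ((hF1 v).continuous_fderiv (by simp)).clm_apply continuous_const
  have hφ1 : ∀ v, ContDiff ℝ ∞ fun y => fderiv ℝ φ y v := fun v => contDiff_dir hφ v
  have hφc : ∀ v, HasCompactSupport fun y => fderiv ℝ φ y v := fun v => compact_dir hφ2 v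
  have hφ3 : ∀ v v' : E N, Continuous fun x => fderiv ℝ (fun y => fderiv ℝ φ y v) x v' :=
    fun v v' => (contDiff_dir (hφ1 v) v').continuous
  have key : ∀ v : E N, ∫ x, F x * fderiv ℝ (fun y => fderiv ℝ φ y v) x v =
      ∫ x, fderiv ℝ (fun y => fderiv ℝ F y v) x v * φ x := by
    intro v
    have e1 := integral_mul_fderiv_eq_neg_fderiv_mul_of_integrable (μ := volume) (f := F)
      (g := fun y => fderiv ℝ φ y v) (v := v)
      (integrable_mul_cs (hF1 v).continuous (hφ1 v).continuous (hφc v))
      (integrable_mul_cs hF.continuous (hφ3 v v) (compact_dir (hφc v) v))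
      (integrable_mul_cs hF.continuous (hφ1 v).continuous (hφc v))
      (fun x _ => hF.differentiable (by simp) x)
      (fun x _ => (hφ1 v).differentiable (by simp) x)
    have e2 := integral_mul_fderiv_eq_neg_fderiv_mul_of_integrable (μ := volume)
      (f := fun y => fderiv ℝ F y v) (g := φ) (v := v)
      (integrable_mul_cs (hF2 v v) hφ.continuous hφ2)
      (integrable_mul_cs (hF1 v).continuous (hφ1 v).continuous (hφc v))
      (integrable_mul_cs (hF1 v).continuous hφ.continuous hφ2)
      (fun x _ => (hF1 v).differentiable (by simp) x)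
      (fun x _ => hφ.differentiable (by simp) x)
    rw [e1, e2, neg_neg]
  unfold lap
  simp_rw [Finset.mul_sum, Finset.sum_mul]
  rw [integral_finsetSum _ fun i _ => integrable_mul_cs hF.continuous (hφ3 _ _)
    (compact_dir (hφc _) _), integral_finsetSum _ fun i _ =>
    integrable_mul_cs (hF2 _ _) hφ.continuous hφ2]
  exact Finset.sum_congr rfl fun i _ => key _

lemma lap_mol {η V : E N → ℝ} (hη : ContDiff ℝ ∞ η) (hη2 : HasCompactSupport η)
    (hV : Integrable V) (x : E N) : lap (mol η V) x = mol (lap η) V x := by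
  have h1 : ∀ i : Fin N, (fun y => fderiv ℝ (mol η V) y (ev i)) =
      mol (fun z => fderiv ℝ η z (ev i)) V := by
    intro i
    funext y
    exact fderiv_mol hη2 (hη.of_le (by simp)) hV.locallyIntegrable y _
  have h2 : ∀ i : Fin N, fderiv ℝ (fun y => fderiv ℝ (mol η V) y (ev i)) x (ev i) =
      mol (fun z => fderiv ℝ (fun y => fderiv ℝ η y (ev i)) z (ev i)) V x := by
    intro i
    rw [h1]
    exact fderiv_mol (compact_dir hη2 _) ((contDiff_dir hη _).of_le (by simp))
      hV.locallyIntegrable x _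
  unfold lap
  simp_rw [h2]
  unfold mol
  rw [← integral_finsetSum]
  · refine integral_congr_ae (Eventually.of_forall fun t => ?_)
    simp only
    rw [Finset.mul_sum]
  · intro i _
    exact integrable_mol_integrand (contDiff_dir (contDiff_dir hη _) _).continuous
      (compact_dir (compact_dir hη2 _) _) hV x

end Calculus

/-! ### Kato's inequality for concave functions -/

/-- The class of concave functions used. -/
structure IsConc (Φ : ℝ → ℝ) : Prop where
  contDiff : ContDiff ℝ 2 Φ
  deriv_nonneg : ∀ t, 0 ≤ deriv Φ t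
  deriv_le : ∀ t, deriv Φ t ≤ 1
  deriv2 : ∀ t, deriv (deriv Φ) t ≤ 0

section Kato

variable {Ω : Set (E N)} {V F : E N → ℝ} {Φ : ℝ → ℝ}

lemma isTest_reflect {η : E N → ℝ} (hη : ContDiff ℝ ∞ η) (hη0 : ∀ x, 0 ≤ η x) {r : ℝ}
    (hr : ∀ y, η y ≠ 0 → ‖y‖ < r) {x : E N} (hx : closedBall x r ⊆ Ω) :
    IsTest Ω fun t => η (x - t) := by
  have hsupp : tsupport (fun t => η (x - t)) ⊆ closedBall x r := by
    refine closure_minimal ?_ isClosed_closedBall
    intro t ht
    have : η (x - t) ≠ 0 := ht
    rw [mem_closedBall, dist_comm, dist_eq_norm]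
    exact (hr _ this).le
  refine ⟨hη.comp (contDiff_const.sub contDiff_id), ?_, hsupp.trans hx, fun t => hη0 _⟩
  exact HasCompactSupport.of_support_subset_isCompact (isCompact_closedBall x r)
    (subset_closure.trans hsupp)

/-- The mollified inequality. -/
lemma mol_ineq (H : ∀ φ, IsTest Ω φ → 0 ≤ (∫ x, V x * (-lap φ x)) + ∫ x, F x * φ x)
    (hV : Integrable V) {η : E N → ℝ} (hη : ContDiff ℝ ∞ η)
    (hη2 : HasCompactSupport η) (hη0 : ∀ x, 0 ≤ η x) {r : ℝ}
    (hr : ∀ y, η y ≠ 0 → ‖y‖ < r) {x : E N} (hx : closedBall x r ⊆ Ω) :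
    lap (mol η V) x ≤ mol η F x := by
  have h1 := H _ (isTest_reflect hη hη0 hr hx)
  rw [lap_mol hη hη2 hV]
  have h2 : (∫ t, V t * (-lap (fun t => η (x - t)) t)) = -mol (lap η) V x := by
    rw [mol, ← integral_neg]
    refine integral_congr_ae (Eventually.of_forall fun t => ?_)
    simp only
    rw [lap_reflect hη]
    ring
  rw [h2] at h1
  unfold mol at *
  linarith

lemma isConc_lipschitz (hΦ : IsConc Φ) (s t : ℝ) : |Φ s - Φ t| ≤ |s - t| := by
  have h := Convex.norm_image_sub_le_of_norm_deriv_le (f := Φ) (C := 1) (s := Set.univ)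
    (x := t) (y := s) (fun x _ => hΦ.contDiff.differentiable (by simp) x) (fun x _ => by
      rw [Real.norm_eq_abs, abs_of_nonneg (hΦ.deriv_nonneg x)]
      exact hΦ.deriv_le x) convex_univ (mem_univ _) (mem_univ _)
  simpa [Real.norm_eq_abs] using h

lemma isConc_continuous_deriv (hΦ : IsConc Φ) : Continuous (deriv Φ) :=
  hΦ.contDiff.continuous_deriv (by norm_num)

/-- Kato's inequality for a smooth mollification. -/
lemma kato_smooth (hΦ : IsConc Φ) {w f φ : E N → ℝ} (hw : ContDiff ℝ ∞ w) (hf : Continuous f)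
    (hφ : IsTest Ω φ) (h : ∀ x ∈ tsupport φ, lap w x ≤ f x) :
    0 ≤ (∫ x, Φ (w x) * (-lap φ x)) + ∫ x, deriv Φ (w x) * f x * φ x := by
  have hF : ContDiff ℝ 2 fun x => Φ (w x) := hΦ.contDiff.comp (hw.of_le ENat.LEInfty.out)
  have h1 : (∫ x, Φ (w x) * (-lap φ x)) = ∫ x, -(lap (fun y => Φ (w y)) x * φ x) := by
    have := byparts hF hφ.smooth hφ.compact
    rw [integral_neg, ← this, ← integral_neg]
    refine integral_congr_ae (Eventually.of_forall fun t => ?_)
    simp only
    ring
  have hlapF : Continuous fun x => lap (fun y => Φ (w y)) x := by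
    have h2 : (fun x => lap (fun y => Φ (w y)) x) = fun x => deriv (deriv Φ) (w x) *
        ∑ i, (fderiv ℝ w x (ev i)) ^ 2 + deriv Φ (w x) * lap w x := by
      funext x
      exact lap_comp hΦ.contDiff hw x
    rw [h2]
    have h3 : Continuous (deriv (deriv Φ)) := by
      have h4 := hΦ.contDiff
      rw [← one_add_one_eq_two] at h4
      exact (contDiff_succ_iff_deriv.1 h4).2.2.continuous_deriv (by simp)
    have h5 : Continuous w := hw.continuous
    have h6 : ∀ i : Fin N, Continuous fun x => fderiv ℝ w x (ev i) := fun i =>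
      (contDiff_dir hw _).continuous
    have h7 : Continuous (lap w) := (contDiff_lap hw).continuous
    have h8 := isConc_continuous_deriv hΦ
    exact ((h3.comp h5).mul (continuous_finsetSum _ fun i _ => (h6 i).pow 2)).add
      ((h8.comp h5).mul h7)
  have i1 : Integrable fun x => -(lap (fun y => Φ (w y)) x * φ x) :=
    (integrable_mul_cs hlapF hφ.smooth.continuous hφ.compact).neg
  have i2 : Integrable fun x => deriv Φ (w x) * f x * φ x :=
    integrable_mul_cs (((isConc_continuous_deriv hΦ).comp hw.continuous).mul hf)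
      hφ.smooth.continuous hφ.compact
  rw [h1, ← integral_add i1 i2]
  refine integral_nonneg fun x => ?_
  simp only [Pi.zero_apply]
  by_cases hx : x ∈ tsupport φ
  · have h2 : lap (fun y => Φ (w y)) x ≤ deriv Φ (w x) * f x := by
      rw [lap_comp hΦ.contDiff hw]
      have h3 : deriv (deriv Φ) (w x) * ∑ i, (fderiv ℝ w x (ev i)) ^ 2 ≤ 0 :=
        mul_nonpos_of_nonpos_of_nonneg (hΦ.deriv2 _) (Finset.sum_nonneg fun i _ => sq_nonneg _)
      have h4 : deriv Φ (w x) * lap w x ≤ deriv Φ (w x) * f x :=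
        mul_le_mul_of_nonneg_left (h x hx) (hΦ.deriv_nonneg _)
      linarith
    have h3 := mul_le_mul_of_nonneg_right h2 (hφ.nonneg x)
    linarith
  · rw [image_eq_zero_of_notMem_tsupport hx]
    simp

lemma abs_bound {φ : E N → ℝ} (hφ : Continuous φ) (hφ2 : HasCompactSupport φ) :
    ∃ C, 0 ≤ C ∧ ∀ x, |φ x| ≤ C := by
  obtain ⟨C, hC⟩ := hφ2.exists_bound_of_continuous hφ
  exact ⟨C, (norm_nonneg _).trans (hC 0), hC⟩

/-- **Kato's inequality** for supersolutions and concave nondecreasing functions. -/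
lemma kato (hΩ : IsOpen Ω)
    (H : ∀ φ, IsTest Ω φ → 0 ≤ (∫ x, V x * (-lap φ x)) + ∫ x, F x * φ x)
    (hV : Integrable V) (hF : Integrable F) (hΦ : IsConc Φ) {φ : E N → ℝ} (hφ : IsTest Ω φ) :
    0 ≤ (∫ x, Φ (V x) * (-lap φ x)) + ∫ x, deriv Φ (V x) * F x * φ x := by
  obtain ⟨δ, hδ, hsub⟩ := hφ.compact.isCompact.exists_cthickening_subset_open hΩ hφ.subset
  let η : ℕ → ContDiffBump (0 : E N) := fun j =>
    ⟨δ / (2 * (j + 1)), δ / (j + 1), by positivity, by
      rw [mul_comm, ← div_div]
      exact half_lt_self (by positivity)⟩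
  have hη0 : Tendsto (fun j => (η j).rOut) atTop (𝓝 0) := by
    have := (tendsto_one_div_add_atTop_nhds_zero_nat (𝕜 := ℝ)).const_mul δ
    rw [mul_zero] at this
    refine this.congr fun j => ?_
    simp only [η]
    ring
  have hK : ∀ᶠ j in atTop, (η j).rOut ≤ 2 * (η j).rIn := Eventually.of_forall fun j => by
    simp only [η]
    apply le_of_eq
    field_simp
  have hrδ : ∀ j, (η j).rOut ≤ δ := by
    intro j
    simp only [η]
    apply div_le_self hδ.le
    have : (0 : ℝ) ≤ j := by positivity
    linarith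
  set e : ℕ → E N → ℝ := fun j => (η j).normed volume with he
  have hes : ∀ j, ContDiff ℝ ∞ (e j) := fun j => (η j).contDiff_normed
  have hec : ∀ j, HasCompactSupport (e j) := fun j => (η j).hasCompactSupport_normed
  have hei : ∀ j, Integrable (e j) := fun j => (η j).integrable_normed
  have hws : ∀ j, ContDiff ℝ ∞ (mol (e j) V) := fun j =>
    contDiff_mol (n := ⊤) (hec j) (hes j) hV.locallyIntegrable
  have hfs : ∀ j, ContDiff ℝ ∞ (mol (e j) F) := fun j =>
    contDiff_mol (n := ⊤) (hec j) (hes j) hF.locallyIntegrable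
  have hsm : ∀ j, 0 ≤ (∫ x, Φ (mol (e j) V x) * (-lap φ x)) +
      ∫ x, deriv Φ (mol (e j) V x) * mol (e j) F x * φ x := by
    intro j
    refine kato_smooth hΦ (hws j) (hfs j).continuous hφ fun x hx => ?_
    refine mol_ineq H hV (hes j) (hec j) (fun y => (η j).nonneg_normed y) (r := δ) ?_ ?_
    · intro y hy
      have : y ∈ Function.support ((η j).normed (volume : Measure (E N))) := hy
      rw [(η j).support_normed_eq, mem_ball_zero_iff] at this
      exact this.trans_le (hrδ j)
    · exact (closedBall_subset_cthickening hx δ).trans hsub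
  obtain ⟨C, hC0, hC⟩ := abs_bound (contDiff_lap hφ.smooth).continuous (compact_lap hφ.compact)
  obtain ⟨B, hB0, hB⟩ := abs_bound hφ.smooth.continuous hφ.compact
  have hVL := tendsto_L1 hη0 hK hV
  have hFL := tendsto_L1 hη0 hK hF
  have hVae := ae_tendsto_mol hη0 hK hV.locallyIntegrable
  have hΦc : Continuous Φ := hΦ.contDiff.continuous
  have hΦ'c := isConc_continuous_deriv hΦ
  have hlc := (contDiff_lap hφ.smooth).continuous
  have hmV : ∀ j, Integrable (mol (e j) V) := fun j => integrable_mol (hei j) hV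
  have hmF : ∀ j, Integrable (mol (e j) F) := fun j => integrable_mol (hei j) hF
  -- first limit
  have hΦint : ∀ {v : E N → ℝ}, Integrable v → Integrable fun x => Φ (v x) * (-lap φ x) := by
    intro v hv
    have h1 : Integrable fun x => (Φ (v x) - Φ 0) * (-lap φ x) := by
      have h2 : Integrable fun x => Φ (v x) - Φ 0 := by
        refine hv.mono ((hΦc.comp_aestronglyMeasurable hv.1).sub aestronglyMeasurable_const) ?_
        refine Eventually.of_forall fun x => ?_
        have := isConc_lipschitz hΦ (v x) 0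
        simpa [Real.norm_eq_abs] using this
      refine h2.mul_bdd (c := C) hlc.neg.aestronglyMeasurable (Eventually.of_forall fun x => ?_)
      rw [norm_neg]; exact hC x
    have h3 : Integrable fun x => Φ 0 * (-lap φ x) :=
      ((hlc.integrable_of_hasCompactSupport (compact_lap hφ.compact)).neg).const_mul _
    refine (h1.add h3).congr (Eventually.of_forall fun x => ?_)
    simp only [Pi.add_apply]
    ring
  have L1 : Tendsto (fun j => ∫ x, Φ (mol (e j) V x) * (-lap φ x)) atTop
      (𝓝 (∫ x, Φ (V x) * (-lap φ x))) := by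
    rw [tendsto_iff_norm_sub_tendsto_zero]
    have h1 := hVL.const_mul C
    rw [mul_zero] at h1
    refine squeeze_zero (fun j => norm_nonneg _) (fun j => ?_) h1
    rw [← integral_sub (hΦint (hmV j)) (hΦint hV), ← integral_const_mul]
    refine norm_integral_le_of_norm_le (((hmV j).sub hV).abs.const_mul C)
      (Eventually.of_forall fun x => ?_)
    have h2 : Φ (mol (e j) V x) * -lap φ x - Φ (V x) * -lap φ x =
        (Φ (mol (e j) V x) - Φ (V x)) * -lap φ x := by ring
    rw [h2, norm_mul, norm_neg, mul_comm]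
    have h3 := isConc_lipschitz hΦ (mol (e j) V x) (V x)
    exact mul_le_mul (hC x) h3 (norm_nonneg _) hC0
  -- second limit
  have hbd : ∀ t, |deriv Φ t| ≤ 1 := fun t => by
    rw [abs_of_nonneg (hΦ.deriv_nonneg t)]; exact hΦ.deriv_le t
  have hprod : ∀ {v f : E N → ℝ}, AEStronglyMeasurable v → Integrable f →
      Integrable fun x => deriv Φ (v x) * f x * φ x := by
    intro v f hv hf
    have h1 : Integrable fun x => f x * (deriv Φ (v x) * φ x) := by
      refine hf.mul_bdd (c := B) ?_ (Eventually.of_forall fun x => ?_)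
      · exact (hΦ'c.comp_aestronglyMeasurable hv).mul
          hφ.smooth.continuous.aestronglyMeasurable
      · rw [norm_mul]
        calc ‖deriv Φ (v x)‖ * ‖φ x‖ ≤ 1 * B := by
              gcongr
              · exact hbd _
              · exact hB x
          _ = B := one_mul _
    refine h1.congr (Eventually.of_forall fun x => ?_)
    simp only
    ring
  have L2 : Tendsto (fun j => ∫ x, deriv Φ (mol (e j) V x) * F x * φ x) atTop
      (𝓝 (∫ x, deriv Φ (V x) * F x * φ x)) := by
    refine tendsto_integral_of_dominated_convergence (fun x => B * |F x|) (fun j => ?_)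
      (hF.abs.const_mul B) (fun j => ?_) ?_
    · exact (hprod (hmV j).1 hF).1
    · refine Eventually.of_forall fun x => ?_
      rw [norm_mul, norm_mul]
      calc ‖deriv Φ (mol (e j) V x)‖ * ‖F x‖ * ‖φ x‖ ≤ 1 * ‖F x‖ * B := by
            gcongr
            · exact hbd _
            · exact hB x
        _ = B * |F x| := by rw [Real.norm_eq_abs]; ring
    · filter_upwards [hVae] with x hx
      exact (((hΦ'c.tendsto _).comp hx).mul_const _).mul_const _
  have L3 : Tendsto (fun j => ∫ x, deriv Φ (mol (e j) V x) * (mol (e j) F x - F x) * φ x) atTop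
      (𝓝 0) := by
    rw [tendsto_zero_iff_norm_tendsto_zero]
    have h1 := hFL.const_mul B
    rw [mul_zero] at h1
    refine squeeze_zero (fun j => norm_nonneg _) (fun j => ?_) h1
    rw [← integral_const_mul]
    refine norm_integral_le_of_norm_le (((hmF j).sub hF).abs.const_mul B)
      (Eventually.of_forall fun x => ?_)
    rw [norm_mul, norm_mul]
    calc ‖deriv Φ (mol (e j) V x)‖ * ‖mol (e j) F x - F x‖ * ‖φ x‖ ≤
        1 * ‖mol (e j) F x - F x‖ * B := by
          gcongr
          · exact hbd _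
          · exact hB x
      _ = B * |mol (e j) F x - F x| := by rw [Real.norm_eq_abs]; ring
  have L4 : Tendsto (fun j => ∫ x, deriv Φ (mol (e j) V x) * mol (e j) F x * φ x) atTop
      (𝓝 (∫ x, deriv Φ (V x) * F x * φ x)) := by
    have h1 := L2.add L3
    rw [add_zero] at h1
    refine h1.congr fun j => ?_
    have h2 : Integrable fun x => deriv Φ (mol (e j) V x) * (mol (e j) F x - F x) * φ x :=
      hprod (hmV j).1 ((hmF j).sub hF)
    rw [← integral_add (hprod (hmV j).1 hF) h2]
    refine integral_congr_ae (Eventually.of_forall fun x => ?_)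
    simp only
    ring
  exact ge_of_tendsto' (L1.add L4) hsm

end Kato

/-! ### The truncations -/

/-- The derivative `ψ_k` of the truncation: smooth, nonincreasing, `1` for `t ≤ k`, `0` for
`t ≥ k + 1`. -/
noncomputable def psi (k : ℕ) (t : ℝ) : ℝ := Real.smoothTransition (k + 1 - t)

/-- The truncation `Φ_k(t) = ∫₀ᵗ ψ_k`. -/
noncomputable def Phi (k : ℕ) (t : ℝ) : ℝ := ∫ s in (0 : ℝ)..t, psi k s

lemma contDiff_psi (k : ℕ) : ContDiff ℝ ∞ (psi k) :=
  Real.smoothTransition.contDiff.comp (contDiff_const.sub contDiff_id)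

lemma psi_nonneg (k : ℕ) (t : ℝ) : 0 ≤ psi k t := Real.smoothTransition.nonneg _

lemma psi_le_one (k : ℕ) (t : ℝ) : psi k t ≤ 1 := Real.smoothTransition.le_one _

lemma psi_eq_one {k : ℕ} {t : ℝ} (h : t ≤ k) : psi k t = 1 :=
  Real.smoothTransition.one_of_one_le (by linarith)

lemma psi_eq_zero {k : ℕ} {t : ℝ} (h : (k : ℝ) + 1 ≤ t) : psi k t = 0 :=
  Real.smoothTransition.zero_of_nonpos (by linarith)

lemma deriv_Phi (k : ℕ) : deriv (Phi k) = psi k := by
  funext t
  exact (intervalIntegral.integral_hasDerivAt_right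
    ((contDiff_psi k).continuous.intervalIntegrable _ _)
    ((contDiff_psi k).continuous.stronglyMeasurableAtFilter _ _)
    ((contDiff_psi k).continuous.continuousAt)).deriv

lemma differentiable_Phi (k : ℕ) : Differentiable ℝ (Phi k) := fun _ =>
  (intervalIntegral.integral_hasDerivAt_right
    ((contDiff_psi k).continuous.intervalIntegrable _ _)
    ((contDiff_psi k).continuous.stronglyMeasurableAtFilter _ _)
    ((contDiff_psi k).continuous.continuousAt)).differentiableAt

lemma antitone_psi (k : ℕ) : Antitone (psi k) := fun _ _ hst =>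
  Real.smoothTransition.monotone (by linarith)

lemma isConc_Phi (k : ℕ) : IsConc (Phi k) where
  contDiff := by
    rw [← one_add_one_eq_two, contDiff_succ_iff_deriv]
    refine ⟨differentiable_Phi k, by simp, ?_⟩
    rw [deriv_Phi]
    exact (contDiff_psi k).of_le (by simp)
  deriv_nonneg t := by rw [deriv_Phi]; exact psi_nonneg k t
  deriv_le t := by rw [deriv_Phi]; exact psi_le_one k t
  deriv2 t := by
    rw [deriv_Phi]
    exact (antitone_psi k).deriv_nonpos

lemma Phi_zero (k : ℕ) : Phi k 0 = 0 := by simp [Phi]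

lemma abs_Phi_le (k : ℕ) (t : ℝ) : |Phi k t| ≤ |t| := by
  have := isConc_lipschitz (isConc_Phi k) t 0
  simpa [Phi_zero] using this

lemma Phi_eq {k : ℕ} {t : ℝ} (h : |t| ≤ k) : Phi k t = t := by
  have h1 : ∀ s ∈ Set.uIcc 0 t, psi k s = 1 := by
    intro s hs
    apply psi_eq_one
    have h2 : s ≤ max 0 t := hs.2
    have h3 : t ≤ |t| := le_abs_self t
    rcases max_cases 0 t with ⟨h4, _⟩ | ⟨h4, _⟩ <;> rw [h4] at h2
    · have : (0 : ℝ) ≤ k := by positivity
      linarith
    · linarith
  rw [Phi, intervalIntegral.integral_congr (g := fun _ => (1 : ℝ)) h1]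
  simp

lemma tendsto_Phi (t : ℝ) : Tendsto (fun k => Phi k t) atTop (𝓝 t) := by
  refine tendsto_const_nhds.congr' ?_
  obtain ⟨m, hm⟩ := exists_nat_ge |t|
  filter_upwards [eventually_ge_atTop m] with k hk
  rw [Phi_eq (hm.trans (by exact_mod_cast hk))]

lemma tendsto_psi (t : ℝ) : Tendsto (fun k => psi k t) atTop (𝓝 1) := by
  refine tendsto_const_nhds.congr' ?_
  obtain ⟨m, hm⟩ := exists_nat_ge t
  filter_upwards [eventually_ge_atTop m] with k hk
  rw [psi_eq_one (hm.trans (by exact_mod_cast hk))]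

/-! ### The main theorem -/

section Main

variable {Ω : Set (E N)} {g : ℝ → ℝ}

/-- The truncated inequality on `Ω`. -/
lemma kato_Om (hΩ : IsOpen Ω) {w : E N → ℝ} (hw : IsSupersolution Ω g w) (k : ℕ) {φ : E N → ℝ}
    (hφ : IsTest Ω φ) :
    0 ≤ (∫ x in Ω, Phi k (w x) * (-lap φ x)) + ∫ x in Ω, psi k (w x) * g (w x) * φ x := by
  have hm := hΩ.measurableSet
  have hV : Integrable (Ω.indicator w) := hw.integrableOn.integrable_indicator hm
  have hF : Integrable (Ω.indicator fun x => g (w x)) := hw.integrableOn_g.integrable_indicator hm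
  have hφ0 : ∀ x, x ∉ Ω → φ x = 0 := fun x hx =>
    image_eq_zero_of_notMem_tsupport fun h => hx (hφ.subset h)
  have hl0 : ∀ x, x ∉ Ω → lap φ x = 0 := by
    intro x hx
    have hx' : x ∉ tsupport φ := fun h => hx (hφ.subset h)
    have h0 : φ =ᶠ[𝓝 x] fun _ => 0 := by
      filter_upwards [(isClosed_tsupport φ).isOpen_compl.mem_nhds hx'] with y hy
      exact image_eq_zero_of_notMem_tsupport hy
    unfold lap
    refine Finset.sum_eq_zero fun i _ => ?_
    have h1 : (fun y => fderiv ℝ φ y (ev i)) =ᶠ[𝓝 x] fun _ => 0 := by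
      filter_upwards [(h0.fderiv (𝕜 := ℝ))] with y hy
      rw [hy]
      simp
    rw [h1.fderiv_eq]
    simp
  have H : ∀ χ, IsTest Ω χ → 0 ≤ (∫ x, Ω.indicator w x * (-lap χ x)) +
      ∫ x, Ω.indicator (fun x => g (w x)) x * χ x := by
    intro χ hχ
    have h1 := hw.ineq χ hχ
    rw [← integral_indicator hm, ← integral_indicator hm] at h1
    have e1 : (Ω.indicator fun x => w x * (-lap χ x)) = fun x => Ω.indicator w x * (-lap χ x) := by
      funext x
      by_cases hx : x ∈ Ω
      · simp [hx]
      · simp [hx]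
    have e2 : (Ω.indicator fun x => g (w x) * χ x) =
        fun x => Ω.indicator (fun x => g (w x)) x * χ x := by
      funext x
      by_cases hx : x ∈ Ω
      · simp [hx]
      · simp [hx]
    rw [e1, e2] at h1
    exact h1
  have h2 := kato hΩ H hV hF (isConc_Phi k) hφ
  rw [deriv_Phi] at h2
  rw [← integral_indicator hm, ← integral_indicator hm]
  have e1 : (Ω.indicator fun x => Phi k (w x) * (-lap φ x)) =
      fun x => Phi k (Ω.indicator w x) * (-lap φ x) := by
    funext x
    by_cases hx : x ∈ Ω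
    · simp [hx]
    · simp [hx, hl0 x hx]
  have e2 : (Ω.indicator fun x => psi k (w x) * g (w x) * φ x) =
      fun x => psi k (Ω.indicator w x) * Ω.indicator (fun x => g (w x)) x * φ x := by
    funext x
    by_cases hx : x ∈ Ω
    · simp [hx]
    · simp [hx]
  rw [e1, e2]
  exact h2

/-- The positive part of `g`, truncated, is bounded. -/
lemma bounded_pos (hg : Continuous g) (hsign : ∀ t, 0 ≤ g t * t) (k : ℕ) :
    ∃ C, 0 ≤ C ∧ ∀ t, |psi k t * max (g t) 0| ≤ C := by
  have hc : Continuous fun t => psi k t * max (g t) 0 :=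
    (contDiff_psi k).continuous.mul (hg.max continuous_const)
  obtain ⟨C, hC⟩ := (isCompact_Icc (a := (0 : ℝ)) (b := k + 1)).exists_bound_of_continuousOn
    hc.continuousOn
  have hC0 : 0 ≤ C := (norm_nonneg _).trans (hC 0 ⟨le_rfl, by positivity⟩)
  refine ⟨C, hC0, fun t => ?_⟩
  rcases lt_or_ge t 0 with h | h
  · have h1 : g t ≤ 0 := by
      by_contra h2
      push Not at h2
      have := hsign t
      nlinarith
    rw [max_eq_right h1, mul_zero, abs_zero]
    exact hC0
  · rcases le_or_gt t (k + 1) with h' | h'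
    · exact hC t ⟨h, h'⟩
    · rw [psi_eq_zero h'.le, zero_mul, abs_zero]
      exact hC0

/-- **Answer to Q1: yes**, for every open set `Ω ⊆ ℝ^N`. -/
theorem result {Ω : Set (E N)} (hΩ : IsOpen Ω) {g : ℝ → ℝ} (hg : Continuous g)
    (hsign : ∀ t, 0 ≤ g t * t) {u : ℕ → E N → ℝ} {v : E N → ℝ}
    (hu : ∀ n, IsSupersolution Ω g (u n))
    (hbound : ∃ C : ℝ, ∀ n, ∫ x in Ω, |g (u n x)| ≤ C) (hv : IntegrableOn v Ω)
    (hlim : Tendsto (fun n => ∫ x in Ω, |u n x - v x|) atTop (𝓝 0)) :
    IsSupersolution Ω g v := by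
  obtain ⟨C, hC⟩ := hbound
  set μ := volume.restrict Ω with hμ
  -- a.e. convergent subsequence
  have hmeas : TendstoInMeasure μ u atTop v := by
    refine tendstoInMeasure_of_tendsto_eLpNorm (p := 1) one_ne_zero
      (fun n => (hu n).integrableOn.1) hv.1 ?_
    have h1 : ∀ n, eLpNorm (u n - v) 1 μ = ENNReal.ofReal (∫ x in Ω, |u n x - v x|) := by
      intro n
      rw [eLpNorm_one_eq_lintegral_enorm]
      have h2 : Integrable (u n - v) μ := (hu n).integrableOn.sub hv
      have := ofReal_integral_norm_eq_lintegral_enorm h2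
      rw [← this]
      rfl
    simp_rw [h1]
    have := ENNReal.tendsto_ofReal hlim
    simpa using this
  obtain ⟨ns, hns, hae⟩ := hmeas.exists_seq_tendsto_ae
  -- integrability of `g(v)`
  have hgv : IntegrableOn (fun x => g (v x)) Ω := by
    refine ⟨hg.comp_aestronglyMeasurable hv.1, ?_⟩
    have h1 : ∫⁻ x, ‖g (v x)‖ₑ ∂μ ≤ liminf (fun i => ∫⁻ x, ‖g (u (ns i) x)‖ₑ ∂μ) atTop := by
      calc ∫⁻ x, ‖g (v x)‖ₑ ∂μ = ∫⁻ x, liminf (fun i => ‖g (u (ns i) x)‖ₑ) atTop ∂μ := by
            refine lintegral_congr_ae ?_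
            filter_upwards [hae] with x hx
            exact ((((hg.tendsto _).comp hx).enorm).liminf_eq).symm
        _ ≤ _ := lintegral_liminf_le' fun i =>
          (hg.comp_aestronglyMeasurable (hu (ns i)).integrableOn.1).enorm
    have h2 : ∀ i, ∫⁻ x, ‖g (u (ns i) x)‖ₑ ∂μ ≤ ENNReal.ofReal C := by
      intro i
      rw [← ofReal_integral_norm_eq_lintegral_enorm (hu (ns i)).integrableOn_g]
      exact ENNReal.ofReal_le_ofReal (hC (ns i))
    have h3 : liminf (fun i => ∫⁻ x, ‖g (u (ns i) x)‖ₑ ∂μ) atTop ≤ ENNReal.ofReal C := by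
      refine liminf_le_of_le (by isBoundedDefault) fun b hb => ?_
      obtain ⟨i, hi⟩ := hb.exists
      exact hi.trans (h2 i)
    exact lt_of_le_of_lt (h1.trans h3) ENNReal.ofReal_lt_top
  refine ⟨hv, hgv, fun φ hφ => ?_⟩
  obtain ⟨B, hB0, hB⟩ := abs_bound hφ.smooth.continuous hφ.compact
  obtain ⟨B', hB'0, hB'⟩ := abs_bound (contDiff_lap hφ.smooth).continuous (compact_lap hφ.compact)
  have hlc := (contDiff_lap hφ.smooth).continuous
  have hφc := hφ.smooth.continuous
  have hφi : Integrable φ μ := (hφc.integrable_of_hasCompactSupport hφ.compact).restrict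
  -- the truncated inequality in the limit
  have key : ∀ k, 0 ≤ (∫ x in Ω, Phi k (v x) * (-lap φ x)) +
      ∫ x in Ω, psi k (v x) * g (v x) * φ x := by
    intro k
    have hψc := (contDiff_psi k).continuous
    have hΦc : Continuous (Phi k) := (differentiable_Phi k).continuous
    obtain ⟨D, hD0, hD⟩ := bounded_pos hg hsign k
    have hΦi : ∀ {w : E N → ℝ}, Integrable w μ →
        Integrable (fun x => Phi k (w x) * (-lap φ x)) μ := by
      intro w hw
      have h1 : Integrable (fun x => Phi k (w x)) μ := by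
        refine hw.mono (hΦc.comp_aestronglyMeasurable hw.1) (Eventually.of_forall fun x => ?_)
        exact abs_Phi_le k (w x)
      refine h1.mul_bdd (c := B') hlc.neg.aestronglyMeasurable (Eventually.of_forall fun x => ?_)
      rw [norm_neg]; exact hB' x
    have La : Tendsto (fun i => ∫ x in Ω, Phi k (u (ns i) x) * (-lap φ x)) atTop
        (𝓝 (∫ x in Ω, Phi k (v x) * (-lap φ x))) := by
      rw [tendsto_iff_norm_sub_tendsto_zero]
      have h1 := (hlim.comp hns.tendsto_atTop).const_mul B'
      rw [mul_zero] at h1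
      refine squeeze_zero (fun j => norm_nonneg _) (fun i => ?_) h1
      rw [← integral_sub (hΦi (hu (ns i)).integrableOn) (hΦi hv)]
      simp only [Function.comp]
      rw [← integral_const_mul]
      refine norm_integral_le_of_norm_le (((hu (ns i)).integrableOn.sub hv).abs.const_mul B')
        (Eventually.of_forall fun x => ?_)
      have h2 : Phi k (u (ns i) x) * -lap φ x - Phi k (v x) * -lap φ x =
          (Phi k (u (ns i) x) - Phi k (v x)) * -lap φ x := by ring
      rw [h2, norm_mul, norm_neg, mul_comm]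
      have h3 := isConc_lipschitz (isConc_Phi k) (u (ns i) x) (v x)
      exact mul_le_mul (hB' x) h3 (norm_nonneg _) hB'0
    have hgp : Continuous fun t => psi k t * max (g t) 0 := hψc.mul (hg.max continuous_const)
    have hgn : Continuous fun t => psi k t * max (-g t) 0 := hψc.mul (hg.neg.max continuous_const)
    have hPi : ∀ {w : E N → ℝ}, AEStronglyMeasurable w μ →
        Integrable (fun x => psi k (w x) * max (g (w x)) 0 * φ x) μ := by
      intro w hw
      have h1 : Integrable (fun x => φ x * (psi k (w x) * max (g (w x)) 0)) μ :=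
        hφi.mul_bdd (c := D) (hgp.comp_aestronglyMeasurable hw)
          (Eventually.of_forall fun x => hD _)
      refine h1.congr (Eventually.of_forall fun x => ?_)
      simp only
      ring
    have hall : ∀ {w : E N → ℝ}, Integrable w μ → Integrable (fun x => g (w x)) μ →
        Integrable (fun x => psi k (w x) * g (w x) * φ x) μ := by
      intro w hw hgw
      have h1 : Integrable (fun x => g (w x) * (psi k (w x) * φ x)) μ := by
        refine hgw.mul_bdd (c := B) ((hψc.comp_aestronglyMeasurable hw.1).mul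
          hφc.aestronglyMeasurable) (Eventually.of_forall fun x => ?_)
        rw [norm_mul, Real.norm_eq_abs, abs_of_nonneg (psi_nonneg _ _)]
        calc psi k (w x) * ‖φ x‖ ≤ 1 * B := by
              gcongr
              · exact psi_le_one _ _
              · exact hB x
          _ = B := one_mul _
      refine h1.congr (Eventually.of_forall fun x => ?_)
      simp only
      ring
    have hsplit : ∀ {w : E N → ℝ}, Integrable w μ → Integrable (fun x => g (w x)) μ →
        Integrable (fun x => psi k (w x) * max (-g (w x)) 0 * φ x) μ ∧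
        ∫ x, psi k (w x) * max (-g (w x)) 0 * φ x ∂μ =
          (∫ x, psi k (w x) * max (g (w x)) 0 * φ x ∂μ) - ∫ x, psi k (w x) * g (w x) * φ x ∂μ := by
      intro w hw hgw
      have e : (fun x => psi k (w x) * max (-g (w x)) 0 * φ x) = fun x =>
          psi k (w x) * max (g (w x)) 0 * φ x - psi k (w x) * g (w x) * φ x := by
        funext x
        rcases le_total 0 (g (w x)) with h | h
        · rw [max_eq_left h, max_eq_right (by linarith)]; ring
        · rw [max_eq_right h, max_eq_left (by linarith)]; ring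
      rw [e]
      exact ⟨(hPi hw.1).sub (hall hw hgw), integral_sub (hPi hw.1) (hall hw hgw)⟩
    have Lp : Tendsto (fun i => ∫ x, psi k (u (ns i) x) * max (g (u (ns i) x)) 0 * φ x ∂μ) atTop
        (𝓝 (∫ x, psi k (v x) * max (g (v x)) 0 * φ x ∂μ)) := by
      refine tendsto_integral_of_dominated_convergence (fun x => D * |φ x|)
        (fun i => (hPi (hu (ns i)).integrableOn.1).1) (hφi.abs.const_mul D) (fun i => ?_) ?_
      · refine Eventually.of_forall fun x => ?_
        rw [norm_mul]
        exact mul_le_mul_of_nonneg_right (hD _) (norm_nonneg _)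
      · filter_upwards [hae] with x hx
        exact ((hgp.tendsto _).comp hx).mul_const _
    have hq0 : ∀ (w : E N → ℝ) (x : E N), 0 ≤ psi k (w x) * max (-g (w x)) 0 * φ x := fun w x =>
      mul_nonneg (mul_nonneg (psi_nonneg _ _) (le_max_right _ _)) (hφ.nonneg x)
    have hq : ∀ i, ∫ x, psi k (u (ns i) x) * max (-g (u (ns i) x)) 0 * φ x ∂μ ≤
        (∫ x in Ω, Phi k (u (ns i) x) * (-lap φ x)) +
          ∫ x, psi k (u (ns i) x) * max (g (u (ns i) x)) 0 * φ x ∂μ := by
      intro i
      rw [(hsplit (hu (ns i)).integrableOn (hu (ns i)).integrableOn_g).2]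
      have := kato_Om hΩ (hu (ns i)) k hφ
      linarith
    have hfatou : ∫⁻ x, ENNReal.ofReal (psi k (v x) * max (-g (v x)) 0 * φ x) ∂μ ≤
        ENNReal.ofReal ((∫ x in Ω, Phi k (v x) * (-lap φ x)) +
          ∫ x, psi k (v x) * max (g (v x)) 0 * φ x ∂μ) := by
      have h1 : ∫⁻ x, ENNReal.ofReal (psi k (v x) * max (-g (v x)) 0 * φ x) ∂μ ≤
          liminf (fun i => ∫⁻ x, ENNReal.ofReal
            (psi k (u (ns i) x) * max (-g (u (ns i) x)) 0 * φ x) ∂μ) atTop := by
        calc _ = ∫⁻ x, liminf (fun i => ENNReal.ofReal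
              (psi k (u (ns i) x) * max (-g (u (ns i) x)) 0 * φ x)) atTop ∂μ := by
              refine lintegral_congr_ae ?_
              filter_upwards [hae] with x hx
              have : Tendsto (fun i => psi k (u (ns i) x) * max (-g (u (ns i) x)) 0 * φ x) atTop
                  (𝓝 (psi k (v x) * max (-g (v x)) 0 * φ x)) :=
                ((hgn.tendsto _).comp hx).mul_const _
              exact ((ENNReal.tendsto_ofReal this).liminf_eq).symm
          _ ≤ _ := lintegral_liminf_le' fun i =>
            ((hsplit (hu (ns i)).integrableOn (hu (ns i)).integrableOn_g).1.1.aemeasurable).ennreal_ofReal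
      refine h1.trans ?_
      have h2 : Tendsto (fun i => ENNReal.ofReal ((∫ x in Ω, Phi k (u (ns i) x) * (-lap φ x)) +
          ∫ x, psi k (u (ns i) x) * max (g (u (ns i) x)) 0 * φ x ∂μ)) atTop
          (𝓝 (ENNReal.ofReal ((∫ x in Ω, Phi k (v x) * (-lap φ x)) +
          ∫ x, psi k (v x) * max (g (v x)) 0 * φ x ∂μ))) :=
        ENNReal.tendsto_ofReal (La.add Lp)
      rw [← h2.liminf_eq]
      refine liminf_le_liminf (Eventually.of_forall fun i => ?_)
      rw [← ofReal_integral_eq_lintegral_ofReal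
        (hsplit (hu (ns i)).integrableOn (hu (ns i)).integrableOn_g).1
        (Eventually.of_forall fun x => hq0 _ x)]
      exact ENNReal.ofReal_le_ofReal (hq i)
    rw [← ofReal_integral_eq_lintegral_ofReal (hsplit hv hgv).1
      (Eventually.of_forall fun x => hq0 _ x)] at hfatou
    have hnonneg : 0 ≤ (∫ x in Ω, Phi k (v x) * (-lap φ x)) +
          ∫ x, psi k (v x) * max (g (v x)) 0 * φ x ∂μ := by
      refine ge_of_tendsto' (La.add Lp) fun i => ?_
      exact (integral_nonneg fun x => hq0 _ x).trans (hq i)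
    have h3 := (ENNReal.ofReal_le_ofReal_iff hnonneg).1 hfatou
    rw [(hsplit hv hgv).2] at h3
    linarith
  -- the limit `k → ∞`
  have L1 : Tendsto (fun k => ∫ x in Ω, Phi k (v x) * (-lap φ x)) atTop
      (𝓝 (∫ x in Ω, v x * (-lap φ x))) := by
    refine tendsto_integral_of_dominated_convergence (fun x => B' * |v x|) (fun k => ?_)
      (hv.abs.const_mul B') (fun k => ?_) ?_
    · exact ((differentiable_Phi k).continuous.comp_aestronglyMeasurable hv.1).mul
        hlc.neg.aestronglyMeasurable
    · refine Eventually.of_forall fun x => ?_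
      rw [norm_mul, norm_neg, mul_comm]
      exact mul_le_mul (hB' x) (abs_Phi_le k _) (norm_nonneg _) hB'0
    · exact Eventually.of_forall fun x => (tendsto_Phi (v x)).mul_const _
  have L2 : Tendsto (fun k => ∫ x in Ω, psi k (v x) * g (v x) * φ x) atTop
      (𝓝 (∫ x in Ω, g (v x) * φ x)) := by
    refine tendsto_integral_of_dominated_convergence (fun x => B * |g (v x)|) (fun k => ?_)
      (hgv.abs.const_mul B) (fun k => ?_) ?_
    · exact (((contDiff_psi k).continuous.comp_aestronglyMeasurable hv.1).mul hgv.1).mul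
        hφc.aestronglyMeasurable
    · refine Eventually.of_forall fun x => ?_
      rw [norm_mul, norm_mul, Real.norm_eq_abs (psi k (v x)), abs_of_nonneg (psi_nonneg _ _)]
      calc psi k (v x) * ‖g (v x)‖ * ‖φ x‖ ≤ 1 * ‖g (v x)‖ * B := by
            gcongr
            · exact psi_le_one _ _
            · exact hB x
        _ = B * |g (v x)| := by rw [Real.norm_eq_abs]; ring
    · refine Eventually.of_forall fun x => ?_
      have := ((tendsto_psi (v x)).mul_const (g (v x))).mul_const (φ x)
      simpa using this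
  exact ge_of_tendsto' (L1.add L2) key

end Main

end Pool.Agent.Results.MP_97dcc2_an.Closedness
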